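import Pool.Agent.X92.GV8

/-!
MP_b91a69_an, Q1: a necessary and sufficient condition on the two sequences for
`ΓBV ⊆ ΛBV_c`.

With `G(n) = ∑_{i ≤ n} 1/γ_i` and `L(n) = ∑_{i ≤ n} 1/λ_i`, the inclusion `ΓBV ⊆ ΛBV_c` holds if and
only if `L(n) = O(G(n))` and, for every `c > 0`, the numbers `G(2n)/G(n)`, taken over those `n` with
`L(n) ≥ c G(n)`, have upper limit smaller than `2`. (Equivalently: `L(n_k)/G(n_k) → 0` along every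
sequence `n_k → ∞` with `G(2 n_k)/G(n_k) → 2`.)
-/

open X92.GV

namespace Pool.Agent.Results.MP_b91a69_an.InclusionCriterion

/-- **Criterion for `ΓBV ⊆ ΛBV_c`.** -/
theorem result {a b : ℝ} (hab : a < b) {Γ Λ : ℕ → ℝ} (hΓ : IsLam Γ) (hΛ : IsLam Λ) :
    BV a b Γ ⊆ BVc a b Λ ↔
      (∃ C : ℝ, ∀ n : ℕ, ∑ i ∈ Finset.range n, 1 / Λ i ≤ C * ∑ i ∈ Finset.range n, 1 / Γ i) ∧
      (∀ c > 0, ∃ δ > 0, ∃ n₀ : ℕ, ∀ n ≥ n₀,
        c * ∑ i ∈ Finset.range n, 1 / Γ i ≤ ∑ i ∈ Finset.range n, 1 / Λ i →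
        ∑ i ∈ Finset.range (2 * n), 1 / Γ i ≤ (2 - δ) * ∑ i ∈ Finset.range n, 1 / Γ i) :=
  main hab hΓ hΛ

end Pool.Agent.Results.MP_b91a69_an.InclusionCriterion
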